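import Pool.Agent.TH188.QS.Cls
import Pool.Agent.TH188.QS.Bases3

/-!
MP_5b7a2c_ag: log uniformization of discrete valuations of arbitrary finite rank, and of
valuations with a divergent sequence of quadratic transforms, in arbitrary dimension and
arbitrary characteristic.

Let `R` be a ring each of whose quotient domains is a field, or is of finite type over a regular
domain `R₁` such that `R₁` is `F`-finite, or `R₁` is formally smooth over a perfect field, or
`R₁` is contained in the quotient and the quotient has characteristic zero. (Examples: fields,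
Dedekind domains of characteristic zero, `F`-finite rings, and complete local rings with
`F`-finite residue fields in equal or mixed characteristic.) Let `B` be a domain which is
essentially of finite type over `R`, and `V` a valuation ring of a field `K` which contains `B`.
If `V` is discrete of rank `n`, then `V` is log uniformizable on `Spec B`. There are no conditions
on the dimension of `B`, on the residue field of `V` (which may be an inseparable, or not finitely
generated, extension) and on the ramification.
-/

set_option autoImplicit false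

universe u

namespace Pool.Agent.Results.MP_5b7a2c_ag.DiscreteValuations

open IsLocalRing Pool.Agent.W418.LU2 Pool.Agent.TH188.QS

/-- The local ring of `Spec B` at the centre of the valuation ring `V`: the fractions of elements
of `B` whose denominators are units of `V`. -/
def centreRing {F : Type u} [Field F] (V : ValuationSubring F) (B : Subring F) : Subring F where
  carrier := {x | ∃ a ∈ B, ∃ b ∈ B, b ≠ 0 ∧ b⁻¹ ∈ V ∧ x = a * b⁻¹}
  mul_mem' := (lo V.toSubring B).mul_mem'
  one_mem' := (lo V.toSubring B).one_mem'
  add_mem' := (lo V.toSubring B).add_mem'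
  zero_mem' := (lo V.toSubring B).zero_mem'
  neg_mem' := (lo V.toSubring B).neg_mem'

/-- The chart `A[I / f]` of the blowing-up of `Spec A` in the ideal `I`. -/
def blowUpChart {F : Type u} [Field F] (A : Subring F) (I : Ideal A) (f : A) : Subring F :=
  Subring.closure ((A : Set F) ∪ {z | ∃ a ∈ I, z = (a : F) / (f : F)})

/-- `P` is a regular local ring and the zero set of `J` is a divisor with strict normal
crossings: the radical of `J` is generated by the product of some of the elements of a regular
system of parameters. -/
def RegularPair (P : Type u) [CommRing P] (J : Ideal P) : Prop :=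
  ∃ (_ : IsRegularLocalRing P) (n : ℕ) (x : Fin n → P) (s : Finset (Fin n)),
    Ideal.span (Set.range x) = IsLocalRing.maximalIdeal P ∧ ringKrullDim P = n ∧
      J.radical = Ideal.span {∏ i ∈ s, x i}

/-- The blowing-up of `X = Spec A` in `V(I)` is a log desingularization of `(X, V(D))` along the
valuation ring `V`. Here `f ∈ I` generates `I V`, the centre of the lift of the valuation lies in
the chart `Spec A[I / f]`, and the ideal `D I` defines the preimage of `V(D) ∪ V(I)`. -/
def IsLogDesingularization {F : Type u} [Field F] (V : ValuationSubring F) (A : Subring F)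
    (D I : Ideal A) : Prop :=
  ∃ f ∈ I, f ≠ 0 ∧ (∀ a ∈ I, (a : F) / (f : F) ∈ V) ∧
    RegularPair (centreRing V (blowUpChart A I f))
      (Ideal.span {z | ∃ a ∈ D * I, (z : F) = (a : F)})

/-- The valuation ring `V` is log uniformizable on `Spec A`. (The blowings-up in the ideals
`I₀ * I₁` are cofinal: the blowing-up in `I₀ * I₁` factors through the blowing-up in `I₀`.) -/
def IsLogUniformizable {F : Type u} [Field F] (V : ValuationSubring F) (A : Subring F) : Prop :=
  ∀ D I₀ : Ideal A, D ≠ ⊥ → I₀ ≠ ⊥ →
    ∃ I₁ : Ideal A, I₁ ≠ ⊥ ∧ IsLogDesingularization V A D (I₀ * I₁)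

/-- A ring of prime characteristic `p` which is a finite module over its ring of `p`-th powers. -/
def IsFFinite (R : Type u) [CommRing R] : Prop :=
  ∃ (p : ℕ) (_ : Fact p.Prime) (_ : CharP R p), (frobenius R p).Finite

/-- A ring which is formally smooth over a perfect field. -/
def IsFormallySmoothOverPerfectField (R : Type u) [CommRing R] : Prop :=
  ∃ (k : Type u) (_ : Field k) (_ : PerfectField k) (_ : Algebra k R), Algebra.FormallySmooth k R

/-- The rings `R` over which the domains of finite type are considered: each quotient domain
`R / 𝔭` is a field, or it is of finite type over a regular domain `R₁` such that `R₁` is `F`-finite,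
or `R₁` is formally smooth over a perfect field, or `R₁` is a subring of `R / 𝔭` and `R / 𝔭` has
characteristic zero. -/
def IsBaseRing (R : Type u) [CommRing R] : Prop :=
  ∀ 𝔭 : Ideal R, 𝔭.IsPrime → IsField (R ⧸ 𝔭) ∨
    ∃ (R₁ : Type u) (_ : CommRing R₁) (_ : IsDomain R₁) (_ : IsRegularRing R₁)
      (σ : R₁ →+* R ⧸ 𝔭), σ.FiniteType ∧
        (IsFFinite R₁ ∨ IsFormallySmoothOverPerfectField R₁ ∨
          (Function.Injective σ ∧ CharZero (R ⧸ 𝔭)))

/-- The image of the `R`-algebra generated by `T`. -/
def adjoined {R K : Type u} [CommRing R] [Field K] (ρ : R →+* K) (T : Set K) : Subring K :=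
  Subring.closure ((ρ.range : Set K) ∪ T)

/-- `B` is a localization of a finitely generated `R`-algebra. -/
def IsEssentiallyOfFiniteType {R K : Type u} [CommRing R] [Field K] (ρ : R →+* K)
    (B : Subring K) : Prop :=
  ∃ T : Set K, T.Finite ∧ adjoined ρ T ≤ B ∧
    ∀ b ∈ B, ∃ a ∈ adjoined ρ T, ∃ s ∈ adjoined ρ T, s ≠ 0 ∧ s⁻¹ ∈ B ∧ b = a * s⁻¹

/-- The quadratic transform of `Q` along `V`: the local ring, at the centre of `V`, of the
blowing-up of `Spec Q` in the centre of `V`. -/
def quadraticTransform {K : Type u} [Field K] (V : ValuationSubring K) (Q : Subring K) :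
    Subring K :=
  centreRing V (Subring.closure ((Q : Set K) ∪ {t | ∃ y ∈ Q, ∃ z ∈ Q,
    V.valuation y < 1 ∧ z ≠ 0 ∧ V.valuation z < 1 ∧
      (∀ w ∈ Q, V.valuation w < 1 → V.valuation w ≤ V.valuation z) ∧ t = y / z}))

/-- The sequence of quadratic transforms of the local ring of `Spec A` at the centre of `V`. -/
def quadraticSequence {K : Type u} [Field K] (V : ValuationSubring K) (A : Subring K) :
    ℕ → Subring K
  | 0 => centreRing V A
  | n + 1 => quadraticTransform V (quadraticSequence V A n)

/-- The values of the maximal ideals in the sequence of quadratic transforms have an infinite sum: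
every value of `V` is exceeded by the value of all products `z 0 * ... * z (n - 1)` of elements
`z i` of the maximal ideals of the rings of the sequence, for some `n`. -/
def IsDivergent {K : Type u} [Field K] (V : ValuationSubring K) (A : Subring K) : Prop :=
  ∀ x : K, x ≠ 0 → ∃ n : ℕ, ∀ z : ℕ → K,
    (∀ i < n, z i ∈ quadraticSequence V A i ∧ z i ≠ 0 ∧ V.valuation (z i) < 1) →
      V.valuation (∏ i ∈ Finset.range n, z i) < V.valuation x

/-- `V` is the composite of the valuation ring `V₁` and the valuation ring `W` of its residue
field. -/
def IsComposite {K : Type u} [Field K] (V V₁ : ValuationSubring K)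
    (W : ValuationSubring (ResidueField V₁)) : Prop :=
  ∀ z : K, z ∈ V ↔ ∃ hz : z ∈ V₁, residue V₁ ⟨z, hz⟩ ∈ W

/-- `V` is the composite of `n` valuations each of which is discrete of rank one, or is divergent
on all `R`-algebras of finite type. -/
def IsStepwiseDivergent (R : Type u) [CommRing R] : ℕ → ∀ {K : Type u} [Field K], (R →+* K) →
    ValuationSubring K → Prop
  | 0, _, _, _, V => V = ⊤
  | n + 1, K, _, ρ, V => ∃ (V₁ : ValuationSubring K) (W : ValuationSubring (ResidueField V₁))
      (hρ : ∀ a, ρ a ∈ V₁.toSubring), IsComposite V V₁ W ∧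
      (IsDiscreteValuationRing V₁ ∨
        ∀ T : Set K, T.Finite → adjoined ρ T ≤ V₁.toSubring → IsDivergent V₁ (adjoined ρ T)) ∧
      IsStepwiseDivergent R n ((residue V₁).comp (ρ.codRestrict V₁.toSubring hρ)) W

lemma quadraticSequence_eq {K : Type u} [Field K] (V : ValuationSubring K) (A : Subring K) :
    quadraticSequence V A = qseq V A := by
  funext n
  induction n with
  | zero => rfl
  | succ n ih =>
    change quadraticTransform V (quadraticSequence V A n) = qt V.toSubring (qseq V A n)
    rw [ih, qt_val]
    rfl

lemma IsDivergent.dv {K : Type u} [Field K] {V : ValuationSubring K} {A : Subring K}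
    (h : IsDivergent V A) : Dv V (qseq V A) := by
  rw [← quadraticSequence_eq]
  exact dv_of_lt h

lemma IsStepwiseDivergent.sd {R : Type u} [CommRing R] (n : ℕ) : ∀ {K : Type u} [Field K]
    (ρ : R →+* K) (V : ValuationSubring K), IsStepwiseDivergent R n ρ V → SD R n ρ V := by
  induction n with
  | zero => exact fun ρ V h => h
  | succ n ih =>
    intro K _ ρ V h
    obtain ⟨V₁, W, hρ, hc, hd, hW⟩ := h
    exact ⟨V₁, W, hρ, hc, hd.imp_right fun h T hT hTV => (h T hT hTV).dv, ih _ _ hW⟩

lemma IsBaseRing.hj {R : Type u} [CommRing R] (h : IsBaseRing R) : HJ R :=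
  BR.hj h

/-- Fields are base rings. -/
lemma isBaseRing_of_isField {R : Type u} [CommRing R] (h : IsField R) : IsBaseRing R := by
  intro 𝔭 h𝔭
  let _ : Field R := h.toField
  have h1 : 𝔭.IsMaximal := by
    rcases Ideal.eq_bot_or_top 𝔭 with h2 | h2
    · rw [h2]; exact Ideal.bot_isMaximal
    · exact absurd h2 h𝔭.ne_top
  exact Or.inl ((Ideal.Quotient.maximal_ideal_iff_isField_quotient 𝔭).1 h1)

/-- Dedekind domains of characteristic zero are base rings. -/
lemma isBaseRing_of_isDedekindDomain {R : Type u} [CommRing R] [IsDedekindDomain R]
    [CharZero R] : IsBaseRing R := by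
  intro 𝔭 h𝔭
  rcases eq_or_ne 𝔭 ⊥ with rfl | hne
  · refine Or.inr ⟨R, inferInstance, inferInstance, inferInstance, Ideal.Quotient.mk ⊥,
      RingHom.FiniteType.of_surjective _ Ideal.Quotient.mk_surjective, Or.inr (Or.inr ?_)⟩
    have h1 : Function.Injective (Ideal.Quotient.mk (⊥ : Ideal R)) := by
      rw [RingHom.injective_iff_ker_eq_bot, Ideal.mk_ker]
    exact ⟨h1, charZero_of_injective_ringHom h1⟩
  · exact Or.inl ((Ideal.Quotient.maximal_ideal_iff_isField_quotient 𝔭).1 (h𝔭.isMaximal hne))

/-- Quotients of regular domains which are `F`-finite or formally smooth over a perfect field are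
base rings. -/
lemma isBaseRing_of_surjective {R R₁ : Type u} [CommRing R] [CommRing R₁] [IsDomain R₁]
    [IsRegularRing R₁] (f : R₁ →+* R) (hf : Function.Surjective f)
    (h : IsFFinite R₁ ∨ IsFormallySmoothOverPerfectField R₁) : IsBaseRing R := by
  intro 𝔭 h𝔭
  refine Or.inr ⟨R₁, inferInstance, inferInstance, inferInstance, (Ideal.Quotient.mk 𝔭).comp f,
    RingHom.FiniteType.of_surjective _ (Ideal.Quotient.mk_surjective.comp hf), ?_⟩
  exact h.imp_right Or.inl

/-- Let `R` be a base ring: each quotient domain `R / 𝔭` is a field, or is of finite type over a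
regular domain `R₁` such that `R₁` is `F`-finite, or `R₁` is formally smooth over a perfect field,
or `R₁` is a subring of `R / 𝔭` and `R / 𝔭` has characteristic zero. Let `K` be a field which is
an `R`-algebra by `ρ`, let `B` be a subring of `K` which is essentially of finite type over `R`,
and `V` a valuation ring of `K` which contains `B`. Suppose that `V` is the composite of `n`
valuations each of which is discrete of rank one or divergent (for example, `V` is discrete of
rank `n`), or that the sequence of quadratic transforms of `B` along `V` is divergent. Then `V` is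
log uniformizable on `Spec B`. -/
theorem result {R : Type u} [CommRing R] (hR : IsBaseRing R) {K : Type u} [Field K] (ρ : R →+* K)
    (B : Subring K) (hB : IsEssentiallyOfFiniteType ρ B) (V : ValuationSubring K)
    (hBV : B ≤ V.toSubring)
    (hV : (∃ n, IsStepwiseDivergent R n ρ V) ∨ IsDivergent V B) :
    IsLogUniformizable V B := by
  obtain ⟨T, hT, hTB, hBT⟩ := hB
  obtain ⟨h1, h2⟩ := main_sd hR.hj ρ hT hBV hTB hBT
    (hV.imp (fun ⟨n, hn⟩ => ⟨n, hn.sd⟩) fun h => h.dv)
  exact h1.logUnif hBV

end Pool.Agent.Results.MP_5b7a2c_ag.DiscreteValuations
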