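import Pool.Agent.TH188.QS.RegBase

/-!
MP_5b7a2c_ag: log uniformization of discrete valuations of rank one, and of valuations with a
divergent sequence of quadratic transforms, over arbitrary regular base rings.

Let `R` be a regular noetherian domain (of arbitrary dimension; it need not be excellent and may
have mixed characteristic), and let `B` be a domain which contains `R` and is essentially of finite
type over `R`. Suppose that the fraction field `K` of `B` has characteristic zero, or is separable
over the fraction field of `R`. Then every discrete valuation ring of `K` which contains `B` is log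
uniformizable on `Spec B`. For example, `B` may be any complete local domain (which is finite over a
regular subring, with separable extension of fraction fields, by the theorems of Cohen and Gabber).
-/

set_option autoImplicit false

universe u

namespace Pool.Agent.Results.MP_5b7a2c_ag.RegularBase

open IsLocalRing Pool.Agent.W418.LU2 Pool.Agent.TH188.QS

/-- The local ring of `Spec B` at the centre of the valuation ring `V`: the fractions of elements
of `B` whose denominators are units of `V`. -/
def centreRing {F : Type u} [Field F] (V : ValuationSubring F) (B : Subring F) : Subring F where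
  carrier := {x | ∃ a ∈ B, ∃ b ∈ B, b ≠ 0 ∧ b⁻¹ ∈ V ∧ x = a * b⁻¹}
  mul_mem' := (lo V.toSubring B).mul_mem'
  one_mem' := (lo V.toSubring B).one_mem'
  add_mem' := (lo V.toSubring B).add_mem'
  zero_mem' := (lo V.toSubring B).zero_mem'
  neg_mem' := (lo V.toSubring B).neg_mem'

/-- The chart `A[I / f]` of the blowing-up of `Spec A` in the ideal `I`. -/
def blowUpChart {F : Type u} [Field F] (A : Subring F) (I : Ideal A) (f : A) : Subring F :=
  Subring.closure ((A : Set F) ∪ {z | ∃ a ∈ I, z = (a : F) / (f : F)})

/-- `P` is a regular local ring and the zero set of `J` is a divisor with strict normal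
crossings: the radical of `J` is generated by the product of some of the elements of a regular
system of parameters. -/
def RegularPair (P : Type u) [CommRing P] (J : Ideal P) : Prop :=
  ∃ (_ : IsRegularLocalRing P) (n : ℕ) (x : Fin n → P) (s : Finset (Fin n)),
    Ideal.span (Set.range x) = IsLocalRing.maximalIdeal P ∧ ringKrullDim P = n ∧
      J.radical = Ideal.span {∏ i ∈ s, x i}

/-- The blowing-up of `X = Spec A` in `V(I)` is a log desingularization of `(X, V(D))` along the
valuation ring `V`. Here `f ∈ I` generates `I V`, the centre of the lift of the valuation lies in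
the chart `Spec A[I / f]`, and the ideal `D I` defines the preimage of `V(D) ∪ V(I)`. -/
def IsLogDesingularization {F : Type u} [Field F] (V : ValuationSubring F) (A : Subring F)
    (D I : Ideal A) : Prop :=
  ∃ f ∈ I, f ≠ 0 ∧ (∀ a ∈ I, (a : F) / (f : F) ∈ V) ∧
    RegularPair (centreRing V (blowUpChart A I f))
      (Ideal.span {z | ∃ a ∈ D * I, (z : F) = (a : F)})

/-- The valuation ring `V` is log uniformizable on `Spec A`. (The blowings-up in the ideals
`I₀ * I₁` are cofinal: the blowing-up in `I₀ * I₁` factors through the blowing-up in `I₀`.) -/
def IsLogUniformizable {F : Type u} [Field F] (V : ValuationSubring F) (A : Subring F) : Prop :=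
  ∀ D I₀ : Ideal A, D ≠ ⊥ → I₀ ≠ ⊥ →
    ∃ I₁ : Ideal A, I₁ ≠ ⊥ ∧ IsLogDesingularization V A D (I₀ * I₁)

/-- The subring `B` of the `R`-algebra `K` is essentially of finite type over `R`: a localization of
the subalgebra generated by a finite set `T`. -/
def IsEssentiallyOfFiniteType (R : Type u) {K : Type u} [CommRing R] [Field K] [Algebra R K]
    (B : Subring K) : Prop :=
  ∃ T : Set K, T.Finite ∧ (Algebra.adjoin R T).toSubring ≤ B ∧
    ∀ b ∈ B, ∃ a ∈ Algebra.adjoin R T, ∃ s ∈ Algebra.adjoin R T, s ≠ 0 ∧ s⁻¹ ∈ B ∧ b = a * s⁻¹

/-- The quadratic transform of `Q` along `V`: the local ring, at the centre of `V`, of the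
blowing-up of `Spec Q` in the centre of `V`. -/
def quadraticTransform {K : Type u} [Field K] (V : ValuationSubring K) (Q : Subring K) :
    Subring K :=
  centreRing V (Subring.closure ((Q : Set K) ∪ {t | ∃ y ∈ Q, ∃ z ∈ Q,
    V.valuation y < 1 ∧ z ≠ 0 ∧ V.valuation z < 1 ∧
      (∀ w ∈ Q, V.valuation w < 1 → V.valuation w ≤ V.valuation z) ∧ t = y / z}))

/-- The sequence of quadratic transforms of the local ring of `Spec A` at the centre of `V`. -/
def quadraticSequence {K : Type u} [Field K] (V : ValuationSubring K) (A : Subring K) :
    ℕ → Subring K
  | 0 => centreRing V A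
  | n + 1 => quadraticTransform V (quadraticSequence V A n)

/-- The values of the maximal ideals in the sequence of quadratic transforms have an infinite sum:
every value of `V` is exceeded by the value of all products `z 0 * ... * z (n - 1)` of elements
`z i` of the maximal ideals of the rings of the sequence, for some `n`. -/
def IsDivergent {K : Type u} [Field K] (V : ValuationSubring K) (A : Subring K) : Prop :=
  ∀ x : K, x ≠ 0 → ∃ n : ℕ, ∀ z : ℕ → K,
    (∀ i < n, z i ∈ quadraticSequence V A i ∧ z i ≠ 0 ∧ V.valuation (z i) < 1) →
      V.valuation (∏ i ∈ Finset.range n, z i) < V.valuation x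

lemma quadraticSequence_eq {K : Type u} [Field K] (V : ValuationSubring K) (A : Subring K) :
    quadraticSequence V A = qseq V A := by
  funext n
  induction n with
  | zero => rfl
  | succ n ih =>
    change quadraticTransform V (quadraticSequence V A n) = qt V.toSubring (qseq V A n)
    rw [ih, qt_val]
    rfl

lemma IsDivergent.dv {K : Type u} [Field K] {V : ValuationSubring K} {A : Subring K}
    (h : IsDivergent V A) : Dv V (qseq V A) := by
  rw [← quadraticSequence_eq]
  exact dv_of_lt h

/-- Let `R` be a regular noetherian domain, `K` a field which contains `R`, and `B` a subring of `K`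
with the fraction field `K` which contains `R` and is essentially of finite type over `R`. Suppose
that `K` has characteristic zero or is formally smooth over `R`, that is, a separable extension of
the fraction field of `R`. Let `V` be a valuation ring of `K` which contains `B`. Suppose that `V`
is a discrete valuation ring, or that the sequence of quadratic transforms of `B` along `V` is
divergent. Then `V` is log uniformizable on `Spec B`. -/
theorem result (R K : Type u) [CommRing R] [IsDomain R] [IsRegularRing R] [Field K] [Algebra R K]
    (hRK : Function.Injective (algebraMap R K)) (hK : CharZero K ∨ Algebra.FormallySmooth R K)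
    (B : Subring K) (hB : IsEssentiallyOfFiniteType R B)
    (hfr : ∀ z : K, ∃ a ∈ B, ∃ b ∈ B, b ≠ 0 ∧ z = a / b) (V : ValuationSubring K)
    (hBV : B ≤ V.toSubring) (hV : IsDiscreteValuationRing V ∨ IsDivergent V B) :
    IsLogUniformizable V B := by
  obtain ⟨T, hT, hTB, hBT⟩ := hB
  have hH : Subsingleton (Algebra.H1Cotangent R K) := by
    rcases hK with hK | hK
    · exact h1_charZero hRK
    · exact hK.subsingleton_h1Cotangent
  rw [adjoin_toSubring] at hTB
  have hBT' : ∀ b ∈ B, ∃ a ∈ Subring.closure (((algebraMap R K).range : Set K) ∪ T),
      ∃ s ∈ Subring.closure (((algebraMap R K).range : Set K) ∪ T),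
        s ≠ 0 ∧ s⁻¹ ∈ B ∧ b = a * s⁻¹ := by
    intro b hb
    obtain ⟨a, ha, s, hs, h⟩ := hBT b hb
    refine ⟨a, ?_, s, ?_, h⟩
    · rw [← adjoin_toSubring]
      exact ha
    · rw [← adjoin_toSubring]
      exact hs
  exact main_reg hH hT hBV hTB hBT' (fun z => by
    obtain ⟨a, ha, b, hb, hb0, hz⟩ := hfr z
    exact ⟨a, ha, b, hb, hb0, by rw [hz, div_eq_mul_inv]⟩) (hV.imp_right fun h => h.dv)

end Pool.Agent.Results.MP_5b7a2c_ag.RegularBase
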