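import Pool.Agent.TH214.U.Abs
import Pool.Agent.TH214.U.SchP
import Pool.Agent.TH214.V.ClosV

/-!
MP_5b7a2c_ag: uniformization of tensor products of valuations of surfaces and of monomial
valuations, on all models of purely inseparable covers, in every dimension.

The fields: `E 1, ..., E m` are linearly disjoint function fields of surfaces over a perfect field
`k` of characteristic `p`, `L` is their compositum, and `K` is generated over `L` by elements
`y 1, ..., y n` which satisfy schön equations `G i (u, y) = 0`, `u a` products of elements
of the `E i` (for example free variables `y j`, or Kummer radicals `y j ^ N = u j`, `N` prime to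
`p`), and by `p`-th roots `w j` of linear combinations of products `g t 1 * ... * g t m` of
functions `g t i ∈ E i`, for each `i` at most one of them not a `p`-th power, and of strongly
nondegenerate Laurent polynomials `F t (u, y)`.

The valuations: a part `t` of the `y j` is a transcendence basis of `K` over `L`. A valuation of `K`
over `k` induces valuations of the `E i` (arbitrary, for example with infinitely many free and
satellite points and with defect in the extension). It is considered here if on the ring
`k[E 1, ..., E m, t]` it is given by its values on the products `a 1 * ... * a m * t ^ e`,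
`a i ∈ E i`: every element `z` of this ring is a sum of such products whose values are not
larger than the value of `z`.

The theorem: such a valuation is uniformizable on every affine variety with the function field `K`:
every blowing-up is dominated by a blowing-up which is regular at the centre of the valuation.

The proof: (1) By helper188's theorem on products of surfaces and by the relative theorem on
schön subvarieties of Pool/Agent/TH214/V for all finite sets of products `a 1 * ... * a m * y ^ e`
there are smooth projective models of `K` on which these products are locally monomials; by a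
toroidal blowing-up they can be made comparable. (2) NEW: every element of `L(t)` is, at the
centre of the valuation on a suitable such model, a monomial times a unit: its leading term
dominates the other ones. So the local rings of these models at the centres exhaust the valuation
ring of `L(t)`. (3) Elements of the valuation ring of `K` are quotients of elements which are
integral over the valuation ring of `L(t)`; smooth algebras are normal, so the local rings exhaust
the valuation ring of `K`. (4) Every affine chart of a projective model which dominates `Spec A`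
is, near the centre, a chart of a blowing-up of `Spec A`.

helper214; built on the library of the starting files and on Pool/Agent/W418/LU2 and
Pool/Agent/TH188 (helper188).
-/

set_option autoImplicit false

namespace Pool.Agent.Results.MP_5b7a2c_ag.TensorValuationsInseparable

open Pool.Agent.W418.LU2 Pool.Agent.TH188.VT

/-- The local ring of `Spec B` at the centre of the valuation ring `V`: the fractions of elements
of `B` whose denominators are units of `V`. -/
def centreRing {F : Type} [Field F] (V : ValuationSubring F) (B : Subring F) : Subring F where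
  carrier := {x | ∃ a ∈ B, ∃ b ∈ B, b ≠ 0 ∧ b⁻¹ ∈ V ∧ x = a * b⁻¹}
  mul_mem' := (lo V.toSubring B).mul_mem'
  one_mem' := (lo V.toSubring B).one_mem'
  add_mem' := (lo V.toSubring B).add_mem'
  zero_mem' := (lo V.toSubring B).zero_mem'
  neg_mem' := (lo V.toSubring B).neg_mem'

/-- The chart `A[I / f]` of the blowing-up of `Spec A` in the ideal `I`. -/
def blowUpChart {F : Type} [Field F] (A : Subring F) (I : Ideal A) (f : A) : Subring F :=
  Subring.closure ((A : Set F) ∪ {z | ∃ a ∈ I, z = (a : F) / (f : F)})

/-- The blowing-up of `X = Spec A` in the ideal `I` is regular at the centre of the lift of the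
valuation. Here `f ∈ I` generates `I V`, so the centre lies in the chart `Spec A[I / f]`. -/
def IsRegularAtCentre {F : Type} [Field F] (V : ValuationSubring F) (A : Subring F)
    (I : Ideal A) : Prop :=
  ∃ f ∈ I, f ≠ 0 ∧ (∀ a ∈ I, (a : F) / (f : F) ∈ V) ∧
    IsRegularLocalRing (centreRing V (blowUpChart A I f))

/-- The valuation ring `V` is uniformizable on `Spec A`: some cofinal family of blowings-up of
`Spec A` consists of blowings-up which are regular at the centre of the lift of the valuation. (The
blowing-up in `I₀ * I₁` factors through the blowing-up in `I₀`, and the ideals `I₀ ≠ 0` are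
arbitrary.) -/
def IsUniformizable {F : Type} [Field F] (V : ValuationSubring F) (A : Subring F) : Prop :=
  ∀ I₀ : Ideal A, I₀ ≠ ⊥ → ∃ I₁ : Ideal A, I₁ ≠ ⊥ ∧ IsRegularAtCentre V A (I₀ * I₁)

/-- The Laurent polynomial `∑ e, F e * (U, Y) ^ e` with exponents `e ∈ ℤ^h × ℤ^n`, evaluated at the
elements `u 1, ..., u h` and `y 1, ..., y n` of a field `K`. -/
noncomputable def value {k K : Type} [Field k] [Field K] [Algebra k K] {h n : ℕ}
    (F : (Fin h ⊕ Fin n → ℤ) →₀ k) (u : Fin h → K) (y : Fin n → K) : K :=
  ∑ e ∈ F.support, F e • ∏ j, Sum.elim u y j ^ e j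

/-- The exponents of the initial form of the Laurent polynomial `F` with respect to the
weights `l`: those of minimal weight `l · e`. -/
def initialExponents {k : Type} [Field k] {h n : ℕ} (F : (Fin h ⊕ Fin n → ℤ) →₀ k)
    (l : Fin h ⊕ Fin n → ℤ) : Finset (Fin h ⊕ Fin n → ℤ) :=
  F.support.filter (fun e => ∀ e' ∈ F.support, ∑ j, l j * e j ≤ ∑ j, l j * e' j)

/-- The value of the initial form of `F` with respect to the weights `l` at the point `z` of the
torus over the algebraic closure of `k`. -/
noncomputable def initialValue {k : Type} [Field k] {h n : ℕ}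
    (F : (Fin h ⊕ Fin n → ℤ) →₀ k) (l : Fin h ⊕ Fin n → ℤ)
    (z : Fin h ⊕ Fin n → AlgebraicClosure k) : AlgebraicClosure k :=
  ∑ e ∈ initialExponents F l, algebraMap k (AlgebraicClosure k) (F e) * ∏ j, z j ^ e j

/-- The vector of the values of the logarithmic partial derivatives `Y i * ∂ / ∂ Y i`,
`i = 1, ..., n` (with respect to the second group of variables only), of the initial form of `F`
with respect to the weights `l` at the point `z`. -/
noncomputable def initialGradient {k : Type} [Field k] {h n : ℕ}
    (F : (Fin h ⊕ Fin n → ℤ) →₀ k) (l : Fin h ⊕ Fin n → ℤ)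
    (z : Fin h ⊕ Fin n → AlgebraicClosure k) : Fin n → AlgebraicClosure k :=
  fun i => ∑ e ∈ initialExponents F l,
    algebraMap k (AlgebraicClosure k) (F e) * (e (Sum.inr i) : AlgebraicClosure k) *
      ∏ j, z j ^ e j

/-- The Laurent polynomials `G 1, ..., G q` in `U` and `Y` are schön equations of codimension at
least `c` with respect to the variables `Y`: for all weights `l ∈ ℤ^h × ℤ^n` and all points
`z` of the torus over the algebraic closure of `k` at which the initial forms of all `G i` vanish
the vectors of the derivatives of these initial forms in the directions of `Y` span a space of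
dimension at least `c`. -/
def SchonEquations {k : Type} [Field k] {h n q : ℕ} (G : Fin q → (Fin h ⊕ Fin n → ℤ) →₀ k)
    (c : ℕ) : Prop :=
  ∀ (l : Fin h ⊕ Fin n → ℤ) (z : Fin h ⊕ Fin n → AlgebraicClosure k), (∀ j, z j ≠ 0) →
    (∀ i, initialValue (G i) l z = 0) →
    c ≤ Module.finrank (AlgebraicClosure k) (Submodule.span (AlgebraicClosure k)
      (Set.range fun i => initialGradient (G i) l z))

/-- The Laurent polynomials `F 1, ..., F s` are strongly nondegenerate on the subscheme given by
`G 1, ..., G q`: for all weights `l ∈ ℤ^h × ℤ^n` and all points `z` of the torus over the algebraic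
closure of `k` at which the initial forms of all `G i` vanish the vector of the derivatives of
the initial form of `F t` at `z` in the directions of `Y` is not a linear combination of those
of the `G i` and of the `F t'`, `t' ≠ t`. -/
def StronglyNondegenerateOn {k : Type} [Field k] {h n q s : ℕ}
    (G : Fin q → (Fin h ⊕ Fin n → ℤ) →₀ k) (F : Fin s → (Fin h ⊕ Fin n → ℤ) →₀ k) : Prop :=
  ∀ (l : Fin h ⊕ Fin n → ℤ) (z : Fin h ⊕ Fin n → AlgebraicClosure k), (∀ j, z j ≠ 0) →
    (∀ i, initialValue (G i) l z = 0) → ∀ t,
    initialGradient (F t) l z ∉ Submodule.span (AlgebraicClosure k)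
      ((Set.range fun i => initialGradient (G i) l z) ∪
        {v | ∃ t', t' ≠ t ∧ v = initialGradient (F t') l z})

section

variable {k K : Type} [Field k] [Field K] [Algebra k K] {m n h d q s r o : ℕ}
  (E : Fin m → IntermediateField k K)

/-- On the ring generated by `k`, the subfields `E 1, ..., E m` of `K` and the elements
`t 1, ..., t d`, the valuation is given by its values on the products `a 1 * ... * a m * t ^ e` of
elements `a i ∈ E i` and monomials in `t`: every element `z` of this ring is a finite sum of such
products, whose values (in multiplicative notation) are at most the value of `z`. -/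
def IsTensorProductOfRestrictions (t : Fin d → K) (V : ValuationSubring K) : Prop :=
  ∀ z ∈ Algebra.adjoin k ((⋃ i, (E i : Set K)) ∪ Set.range t),
    ∃ (N : ℕ) (a : Fin N → Fin m → K) (e : Fin N → Fin d → ℤ),
      (∀ j i, a j i ∈ E i) ∧ z = ∑ j, (∏ i, a j i) * ∏ l, t l ^ e j l ∧
        ∀ j, V.valuation ((∏ i, a j i) * ∏ l, t l ^ e j l) ≤ V.valuation z

/-- The structure of the field `K` and its generators: `E 1, ..., E m` are linearly disjoint function
fields of surfaces over `k`, the `u a ≠ 0` are products of elements of the `E i`, the elements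
`y j ≠ 0` satisfy the equations `G i (u, y) = 0`, where the `G i` are schön equations of
codimension at least `c` with respect to `Y`, and `d = n - c` of the `y j`, those with the indices
`ρ l`, are a transcendence basis of `K` over the field generated by the `E i`. The `F t` are
strongly nondegenerate on the subscheme given by the `G i`, for each `i` at most one of the
elements `g 1 i, ..., g o i` of `E i` is not a `p`-th power in `E i`, the `w j ^ p` are linear
combinations with coefficients in `k` of the products `g t 1 * ... * g t m` and of the `F t (u, y)`,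
and `K` is generated by the `E i`, the `y j` and the `w j`. -/
structure IsInseparableCover (p c : ℕ) (u : Fin h → K) (y : Fin n → K)
    (G : Fin q → (Fin h ⊕ Fin n → ℤ) →₀ k) (ρ : Fin d → Fin n) (g : Fin o → ∀ i, E i)
    (F : Fin s → (Fin h ⊕ Fin n → ℤ) →₀ k) (w : Fin r → K) : Prop where
  surfaces : AreIndependentSurfaceFields E
  products : ∀ a, u a ≠ 0 ∧ ∃ v : ∀ i, E i, u a = ∏ i, (v i : K)
  ne_zero : ∀ j, y j ≠ 0
  equations : ∀ i, value (G i) u y = 0
  schon : SchonEquations G c
  codimension : c + d = n
  independent : AlgebraicIndependent (IntermediateField.adjoin k (⋃ i, (E i : Set K))) (y ∘ ρ)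
  algebraic : Algebra.IsAlgebraic
    (IntermediateField.adjoin k ((⋃ i, (E i : Set K)) ∪ Set.range (y ∘ ρ))) K
  nondegenerate : StronglyNondegenerateOn G F
  powers : ∀ i t t', t ≠ t' → (∃ b, b ^ p = g t i) ∨ ∃ b, b ^ p = g t' i
  roots : ∀ j, w j ^ p ∈ Submodule.span k
    ((Set.range fun t => ∏ i, (g t i : K)) ∪ Set.range fun t => value (F t) u y)
  generate : IntermediateField.adjoin k
    (Set.range w ∪ (Set.range y ∪ ⋃ i, (E i : Set K))) = ⊤

end

/-- Let `k` be a perfect field of characteristic `p`, and let `E 1, ..., E m` be linearly disjoint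
function fields of smooth projective surfaces over `k` (or `E i = k(x i 0, x i 1)` with
algebraically independent `x i j`). Let the field `K` be generated by the `E i`, by
`y 1, ..., y n ≠ 0` with schön equations `G i (u, y) = 0` of codimension at least `c`, where the
`u a` are products of elements of the `E i`, and by `p`-th roots `w j` of linear combinations of
products `g t 1 * ... * g t m`, `g t i ∈ E i`, where for each `i` at most one of the `g t i` is not
a `p`-th power, and of strongly nondegenerate Laurent polynomials `F t (u, y)`; let `t = y ∘ ρ`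
consist of `d = n - c` of the `y j` and be a transcendence basis of `K` over the field generated
by the `E i`. Let `V` be a valuation ring of `K` over `k` which on the ring generated by the `E i`
and `t` is given by its values on the products `a 1 * ... * a m * t ^ e`, `a i ∈ E i`. Then `V` is
uniformizable on every affine variety `Spec A` over `k` with the function field `K` on which it has
a centre. -/
theorem result (p : ℕ) [Fact p.Prime] (k K : Type) [Field k] [PerfectField k] [CharP k p]
    [Field K] [Algebra k K] (m n h c d q s r o : ℕ) (E : Fin m → IntermediateField k K)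
    (u : Fin h → K) (y : Fin n → K) (G : Fin q → (Fin h ⊕ Fin n → ℤ) →₀ k) (ρ : Fin d → Fin n)
    (g : Fin o → ∀ i, E i) (F : Fin s → (Fin h ⊕ Fin n → ℤ) →₀ k) (w : Fin r → K)
    (hK : IsInseparableCover E p c u y G ρ g F w)
    (V : ValuationSubring K) (hkV : ∀ c : k, algebraMap k K c ∈ V)
    (hV : IsTensorProductOfRestrictions E (y ∘ ρ) V) (A : Subalgebra k K) (hA : A.FG)
    (hfr : ∀ x : K, ∃ a ∈ A, ∃ b ∈ A, b ≠ 0 ∧ x = a * b⁻¹) (hAV : ∀ a ∈ A, a ∈ V) :
    IsUniformizable V A.toSubring := by
  classical
  have hfrac : IsFractionRing A K := by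
    refine IsFractionRing.of_field _ _ fun x => ?_
    obtain ⟨a, ha, b, hb, hb0, h1⟩ := hfr x
    exact ⟨⟨a, ha⟩, ⟨b, hb⟩, h1.trans (div_eq_mul_inv _ _).symm⟩
  have hft : Algebra.FiniteType k A := (Subalgebra.fg_iff_finiteType A).1 hA
  have htr : Algebra.trdeg k K < Cardinal.aleph0 := by
    rw [Pool.Agent.W348.WTM.trdeg_frac k A K]
    exact _root_.trdeg_lt_aleph0_of_finiteType
  choose hu0 uu huu using hK.products
  have huu0 : ∀ a i, uu a i ≠ 0 := by
    intro a i h0
    apply hu0 a
    rw [huu a]
    exact Finset.prod_eq_zero (Finset.mem_univ i) (by rw [h0]; rfl)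
  have hNDc : Pool.Agent.TH214.V.NDVc G F (Function.Embedding.inr : Fin n ↪ Fin h ⊕ Fin n)
      (fun _ => True) c := by
    intro l z hz hv
    refine ⟨hK.schon l z hz hv, fun t _ => ?_⟩
    have h1 := hK.nondegenerate l z hz hv t
    have h2 : {v | ∃ t', t' ≠ t ∧ (True ∨ ∃ e ∈ (F t').support, ∑ j, l j * e j ≤ 0) ∧
        v = Pool.Agent.TH214.V.gv (F t') (Function.Embedding.inr : Fin n ↪ Fin h ⊕ Fin n) l z} =
        {v | ∃ t', t' ≠ t ∧ v = initialGradient (F t') l z} := by
      ext v
      constructor
      · rintro ⟨t', h3, h4, h5⟩
        exact ⟨t', h3, h5⟩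
      · rintro ⟨t', h3, h5⟩
        exact ⟨t', h3, Or.inl trivial, h5⟩
    rw [h2]
    exact h1
  have hND := Pool.Agent.TH214.V.ndv_of_ndvc hNDc
  have e1 : (fun j => j ∈ Set.range (Function.Embedding.inr : Fin n ↪ Fin h ⊕ Fin n)) =
      fun j : Fin h ⊕ Fin n => j.isRight = true := by
    funext j
    apply propext
    rcases j with j | j
    · constructor
      · rintro ⟨i, hi⟩
        exact absurd hi (by simp)
      · intro hi
        exact absurd hi (by simp)
    · exact ⟨fun _ => rfl, fun _ => ⟨j, rfl⟩⟩
  rw [e1] at hND
  -- the coefficients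
  obtain ⟨lam, mu, hlm⟩ := Pool.Agent.TH214.V.exists_coeffP _ _ hK.roots
  let J' := {t : Fin o // ∀ i, g t i ≠ 0}
  have hlm' : ∀ j, w j ^ p = ∑ t : J', lam j t.1 • ∏ i, (g t.1 i : K) +
      ∑ t, mu j t • Pool.Agent.TH214.V.lv (F t) (Sum.elim u y) := by
    intro j
    rw [hlm j]
    congr 1
    have h1 : ∑ t, lam j t • ∏ i, (g t i : K) =
        ∑ t ∈ Finset.univ.filter (fun t => ∀ i, g t i ≠ 0), lam j t • ∏ i, (g t i : K) := by
      refine (Finset.sum_filter_of_ne fun t _ ht i hi => ht ?_).symm
      rw [Finset.prod_eq_zero (Finset.mem_univ i) (by rw [hi]; rfl), smul_zero]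
    rw [h1]
    exact Finset.sum_subtype (Finset.univ.filter fun t => ∀ i, g t i ≠ 0)
      (p := fun t => ∀ i, g t i ≠ 0) (F := inferInstance) (by simp) _
  -- the monomials
  let Y : Set K := {v | ∃ (a : ∀ i, E i) (e : Fin n → ℤ), (∀ i, a i ≠ 0) ∧
    v = (∏ i, (a i : K)) * ∏ j, y j ^ e j}
  have hY0 : ∀ v ∈ Y, v ≠ 0 := by
    rintro _ ⟨a, e, ha, rfl⟩
    refine mul_ne_zero (Finset.prod_ne_zero_iff.2 fun i _ h0 => ha i (Subtype.ext h0))
      (Finset.prod_ne_zero_iff.2 fun j _ => zpow_ne_zero _ (hK.ne_zero j))
  have hT : ∀ z ∈ Algebra.adjoin k ((⋃ i, (E i : Set K)) ∪ Set.range (y ∘ ρ)),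
      Pool.Agent.TH214.U.Dmn V Y z := by
    intro z hz
    obtain ⟨N, a, e, ha, hz', hv⟩ := hV z hz
    refine ⟨N, fun j => (∏ i, a j i) * ∏ l, (y ∘ ρ) l ^ e j l, fun j => ?_, hz', hv⟩
    by_cases h0 : ∏ i, a j i = 0
    · left
      change (∏ i, a j i) * _ = 0
      rw [h0, zero_mul]
    · right
      refine ⟨fun i => ⟨a j i, ha j i⟩, fun j' => ∑ l ∈ Finset.univ.filter (fun l => ρ l = j'),
        e j l, fun i h1 => h0 (Finset.prod_eq_zero (Finset.mem_univ i)
          (congrArg Subtype.val h1)), ?_⟩
      have h2 : ∏ j', y j' ^ (∑ l ∈ Finset.univ.filter (fun l => ρ l = j'), e j l) =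
          ∏ l, (y ∘ ρ) l ^ e j l := by
        rw [← Finset.prod_fiberwise_of_maps_to (s := Finset.univ) (t := Finset.univ) (g := ρ)
          (fun _ _ => Finset.mem_univ _) (fun l => (y ∘ ρ) l ^ e j l)]
        refine Finset.prod_congr rfl fun j' _ => ?_
        have h3 : ∀ S : Finset (Fin d), (∀ l ∈ S, ρ l = j') →
            y j' ^ (∑ l ∈ S, e j l) = ∏ l ∈ S, (y ∘ ρ) l ^ e j l := by
          intro S
          induction S using Finset.induction_on with
          | empty => intro _; simp
          | insert l S hl ih =>
            intro hS
            rw [Finset.sum_insert hl, Finset.prod_insert hl, zpow_add₀ (hK.ne_zero j'),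
              ih fun l' hl' => hS l' (Finset.mem_insert_of_mem hl')]
            congr 1
            change y j' ^ e j l = y (ρ l) ^ e j l
            rw [hS l (Finset.mem_insert_self _ _)]
        exact h3 _ fun l hl => (Finset.mem_filter.1 hl).2
      change (∏ i, a j i) * ∏ l, (y ∘ ρ) l ^ e j l = _
      rw [h2]
  have h := Pool.Agent.TH214.U.unif_abs V hkV _ Y hY0 hT
    (fun x => hK.algebraic.isAlgebraic x)
    (fun S _ v hv => Pool.Agent.TH214.U.sch_modelP (p := p) hK.surfaces htr J' (fun t => g t.1)
      (fun i t t' hne => hK.powers i t.1 t'.1 fun h => hne (Subtype.ext h)) (fun t => t.2)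
      uu huu0 u huu y hK.ne_zero ρ hK.codimension hK.independent (Fin q) (Fin s) G F
      hK.equations hND w (fun j t => lam j t.1) mu hlm' hK.generate S v hv) A hA hAV hfr
  intro I₀ hI₀
  obtain ⟨I₁, hI₁, g, hg, hg0, hgV, hreg⟩ := h I₀ hI₀
  exact ⟨I₁, hI₁, g, hg, hg0, hgV, hreg⟩

end Pool.Agent.Results.MP_5b7a2c_ag.TensorValuationsInseparable
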